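import Pool.Agent.W707.HM.Stm

/-! Project HM (helper707), part MIR: reflection of the profile. -/

set_option autoImplicit false

namespace Pool.Agent.W639.HM

open Pool.Agent.W707.HM
open Pool.Agent.W360.MQ (cab RankOneConvex)

/-- the reflection -/
def J : Matrix (Fin 2) (Fin 2) ℝ := !![1, 0; 0, -1]

theorem cab_mul (A : Matrix (Fin 2) (Fin 2) ℝ) : cab (A * J) = ((cab A).2, (cab A).1) := by
  have e00 : (A * J) 0 0 = A 0 0 := by simp [J, Matrix.mul_apply, Fin.sum_univ_two]
  have e01 : (A * J) 0 1 = -A 0 1 := by simp [J, Matrix.mul_apply, Fin.sum_univ_two]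
  have e10 : (A * J) 1 0 = A 1 0 := by simp [J, Matrix.mul_apply, Fin.sum_univ_two]
  have e11 : (A * J) 1 1 = -A 1 1 := by simp [J, Matrix.mul_apply, Fin.sum_univ_two]
  unfold cab
  rw [e00, e01, e10, e11]
  simp only [Prod.mk.injEq]
  constructor <;> push_cast <;> ring

theorem wm_mir (p : ℝ) (f : ℝ → ℝ) (A : Matrix (Fin 2) (Fin 2) ℝ) :
    Wm p (mir f) A = Wm p f (A * J) := by
  unfold Wm wh mir
  rw [cab_mul]
  simp only
  rw [add_comm ‖(cab A).2‖ ‖(cab A).1‖, ← neg_div, neg_sub]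

theorem main : S_MIR := by
  intro p f h F H hH t ht0 ht1
  have hJ : IsUnit J.det := by
    have : J.det = -1 := by simp [J, Matrix.det_fin_two]
    rw [this]
    exact isUnit_one.neg
  have hr : (H * J).rank = 1 := by
    rw [Matrix.rank_mul_eq_left_of_isUnit_det J H hJ, hH]
  have h1 := h (F * J) (H * J) hr t ht0 ht1
  rw [wm_mir, wm_mir, wm_mir]
  have e : ((1 - t) • F + t • (F + H)) * J = (1 - t) • (F * J) + t • (F * J + H * J) := by
    rw [Matrix.add_mul, Matrix.smul_mul, Matrix.smul_mul, Matrix.add_mul]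
  rw [e, Matrix.add_mul]
  exact h1

end Pool.Agent.W639.HM
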